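import Pool.Agent.RHO.Stmts4

/-!
# MP_ca8ef3_an, row GR3: the graph with affinely independent paths
-/

set_option autoImplicit false

namespace Pool.Agent.RHO.H15d

open Finset

/-- `evl` is additive in the coefficients. -/
theorem evl_sum {A D : ℕ} (M : Mt A D) (J : Finset ℕ) (l : ℕ) :
    ∀ (m : ℕ → List (Fin D) → ZMod 2) (r : ℕ) (u : Fin A → ZMod 2),
      evl M (fun y => ∑ j ∈ J, m j y) r l u = ∑ j ∈ J, evl M (m j) r l u := by
  induction l with
  | zero =>
    intro m r u
    simp only [evl, Finset.sum_smul]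
  | succ l ih =>
    intro m r u
    simp only [evl]
    rw [Finset.sum_comm]
    refine Finset.sum_congr rfl fun i _ => ?_
    exact ih (fun j y => m j (i :: y)) (r + 1) _

/-- `evl` of a function which vanishes on the words of the given length. -/
theorem evl_eq_zero {A D : ℕ} (M : Mt A D) (l : ℕ) :
    ∀ (m : List (Fin D) → ZMod 2) (r : ℕ) (u : Fin A → ZMod 2),
      (∀ y, y.length = l → m y = 0) → evl M m r l u = 0 := by
  induction l with
  | zero =>
    intro m r u h
    simp only [evl]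
    rw [h [] rfl, zero_smul]
  | succ l ih =>
    intro m r u h
    simp only [evl]
    refine Finset.sum_eq_zero fun i _ => ?_
    exact ih _ _ _ fun y hy => h (i :: y) (by rw [List.length_cons, hy])

/-- A walk is determined by its labels. -/
theorem wk_foldl {P : Type} {D : ℕ} {s : Fin D → Equiv.Perm P} {v w : P ⊕ P}
    {L : List (Fin D)} (h : Wk s v w L) : L.foldl (ot s) v = w := by
  induction h with
  | nil v => rfl
  | cons v w i L _ ih => exact ih

/-- The main step: the points of the vertices of a path are affinely independent. -/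
theorem afi_main (hMG5 : MG5Stmt) (hWSQ : WSQStmt) (hMG2 : MG2Stmt) {A D t : ℕ}
    (M : Fin t → Fin D → Matrix (Fin A) (Fin A) (ZMod 2))
    (hM : ∀ L : List (Fin D), L.length ≤ t →
      ∀ J : Finset ℕ, (∀ j ∈ J, j ≤ L.length) → ∀ d ≤ t,
      (∃ y, y.length = d ∧ ∑ j ∈ J, mg true (L.take j) y ≠ 0) →
      evl (xM M) (fun y => ∑ j ∈ J, mg true (L.take j) y) 0 d (fun _ => 1) ≠ 0)
    (s : Fin D → Equiv.Perm (Pt (Fin t × Fin A))) (hs : ∀ i z, s i z = sM M i z)
    (p : Pt (Fin t × Fin A)) (L : List (Fin D)) (hL : L.IsChain (· ≠ ·)) (hLt : L.length ≤ t)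
    (J : Finset ℕ) (hJ : J ≠ ∅) (hJL : ∀ j ∈ J, j ≤ L.length) (hJe : Even J.card) :
    ∑ j ∈ J, ptv ((L.take j).foldl (ot s) (Sum.inl p)) ≠ 0 := by
  classical
  obtain ⟨y₀, hy₀l, hy₀⟩ := hMG5 D L J hL hJ hJL
  have hex : ∃ d, ∃ y : List (Fin D), y.length = d ∧ ∑ j ∈ J, mg true (L.take j) y ≠ 0 :=
    ⟨y₀.length, y₀, rfl, by rw [hy₀]; exact one_ne_zero⟩
  obtain ⟨d, hd, hmin⟩ : ∃ d, (∃ y : List (Fin D), y.length = d ∧
      ∑ j ∈ J, mg true (L.take j) y ≠ 0) ∧
      ∀ d' < d, ¬ ∃ y : List (Fin D), y.length = d' ∧ ∑ j ∈ J, mg true (L.take j) y ≠ 0 :=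
    ⟨Nat.find hex, Nat.find_spec hex, fun d' hd' => Nat.find_min hex hd'⟩
  have hdt : d ≤ t := by
    by_contra hcon
    push Not at hcon
    exact hmin y₀.length (by omega) ⟨y₀, rfl, by rw [hy₀]; exact one_ne_zero⟩
  have hval := hM L hLt J hJL d hdt hd
  have hsum : ∑ j ∈ J, sq (ptv ((L.take j).foldl (ot s) (Sum.inl p))) d =
      evl (xM M) (fun y => ∑ j ∈ J, mg true (L.take j) y) 0 d (fun _ => 1) := by
    have h1 : ∀ j ∈ J, sq (ptv ((L.take j).foldl (ot s) (Sum.inl p))) d =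
        ∑ r ∈ range (d + 1), evl (xM M) (mg true (L.take j)) r (d - r) (sq p r) := fun j _ =>
      hMG2 A D (xM M) true _ _ _ (hWSQ A D t M s hs (L.take j) p).1 d
    rw [Finset.sum_congr rfl h1, Finset.sum_comm]
    rw [Finset.sum_eq_single 0]
    · rw [evl_sum]
      rfl
    · intro r hr hr0
      rw [← evl_sum]
      refine evl_eq_zero _ _ _ _ _ fun y hy => ?_
      by_contra hcon
      exact hmin (d - r) (by have := Finset.mem_range.mp hr; omega) ⟨y, hy, hcon⟩
    · intro h
      exact absurd (Finset.mem_range.mpr (Nat.succ_pos d)) h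
  rw [← hsum] at hval
  intro hzero
  apply hval
  rcases d with _ | d'
  · have h2 : ∀ j ∈ J, sq (ptv ((L.take j).foldl (ot s) (Sum.inl p))) 0 =
        (fun _ => 1 : Fin A → ZMod 2) := fun j _ => rfl
    rw [Finset.sum_congr rfl h2, Finset.sum_const]
    funext x
    obtain ⟨k, hk⟩ := hJe
    rw [hk]
    simp only [Pi.smul_apply, smul_eq_mul, nsmul_eq_mul, mul_one, Pi.zero_apply, Nat.cast_add]
    exact CharTwo.add_self_eq_zero _
  · funext x
    rw [Finset.sum_apply]
    change ∑ j ∈ J, (if h : d' < t then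
      (ptv ((L.take j).foldl (ot s) (Sum.inl p))) (⟨d', h⟩, x) else 0) = 0
    by_cases h : d' < t
    · simp only [h, dif_pos]
      have h3 := congrFun hzero (⟨d', h⟩, x)
      rw [Finset.sum_apply] at h3
      exact h3
    · simp only [h, dif_neg, not_false_eq_true, Finset.sum_const_zero]

theorem gr3 (hMG5 : MG5Stmt) (hMG6 : MG6Stmt) (hWSQ : WSQStmt) (hMG2 : MG2Stmt)
    (hSMB : SMBStmt) (hTRL : TRLStmt) : GR3Stmt := by
  intro A D t hA hlt
  have hu : (fun _ => 1 : Fin A → ZMod 2) ≠ 0 := by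
    intro h
    exact one_ne_zero (congrFun h ⟨0, hA⟩)
  obtain ⟨M, hM⟩ := hMG6 A D t (fun _ => 1) hu hlt
  let s : Fin D → Equiv.Perm (Pt (Fin t × Fin A)) := fun i =>
    Equiv.ofBijective (sM M i) (hSMB A D t M i).2.1
  have hs : ∀ i z, s i z = sM M i z := fun i z => rfl
  have hafi : ∀ (p : Pt (Fin t × Fin A)) (L : List (Fin D)), L.IsChain (· ≠ ·) → L.length ≤ t →
      ∀ J : Finset ℕ, J ≠ ∅ → (∀ j ∈ J, j ≤ L.length) → Even J.card →
      ∑ j ∈ J, ptv ((L.take j).foldl (ot s) (Sum.inl p)) ≠ 0 :=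
    fun p L hL hLt J hJ hJL hJe => afi_main hMG5 hWSQ hMG2 M hM s hs p L hL hLt J hJ hJL hJe
  refine ⟨{ s := s, aff := ?_, gir := ?_, afi := hafi }⟩
  · intro i j
    exact (hSMB A D t M i).2.2 j
  · intro Z hZ hb
    by_contra hne
    obtain ⟨p, W, hW, hWl, hWc, hWk⟩ := hTRL (Pt (Fin t × Fin A)) D s Z hne hb
    have hW0 : W.length ≠ 0 := fun h => hW (List.length_eq_zero_iff.mp h)
    refine hafi p W hWc (hWl.trans hZ) {0, W.length} (Finset.insert_ne_empty _ _) ?_ ?_ ?_
    · intro j hj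
      rw [Finset.mem_insert, Finset.mem_singleton] at hj
      omega
    · rw [Finset.card_pair (Ne.symm hW0)]
      exact even_two
    · rw [Finset.sum_pair (Ne.symm hW0)]
      have h1 : (W.take 0).foldl (ot s) (Sum.inl p) = Sum.inl p := by simp
      have h2 : (W.take W.length).foldl (ot s) (Sum.inl p) = Sum.inl p := by
        rw [List.take_length]
        exact wk_foldl hWk
      rw [h1, h2]
      funext x
      exact CharTwo.add_self_eq_zero (p x)

end Pool.Agent.RHO.H15d
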